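import Mathlib

/-!
# MP_24384b_lc: deterministic partially blind versus general counter machines

The language `{aᵐ bⁿ : m ≤ n}` is accepted with one reversal by a deterministic realtime machine
with one counter, but not by a deterministic quasi-realtime partially blind machine, for any number
of counters and any bound on the number of reversals. So the two families differ for every `c ≥ 1`,
and the answer to the question is negative.
-/

set_option autoImplicit false

namespace Pool.Agent.Results.MP_24384b_lc.BlindVersusGeneral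

open Relation

/-! ### The model -/

/-- A one-way multicounter machine with input alphabet `A`, finite set `Q` of states and `k`
counters. A move `(q, a, Z, q', b, v)` is available in state `q` if the scanned symbol is `a`
(`none` means that the whole input has been read) and counter `i` is zero exactly if `Z i = true`;
it goes to the state `q'`, the head moves to the right iff `b = true`, and the counter `i` is
changed by `v i ∈ {-1, 0, 1}`. -/
structure Machine (A : Type) where
  Q : Type
  finQ : Finite Q
  k : ℕ
  start : Q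
  final : Set Q
  δ : Set (Q × Option A × (Fin k → Bool) × Q × Bool × (Fin k → SignType))

/-- A configuration together with the history of reversals: state, remaining input, counters,
`dir i` is the direction of the last change of counter `i` (`0` if it has not been changed), and
`rev` is the number of reversals so far. -/
@[ext] structure Conf {A : Type} (M : Machine A) where
  q : M.Q
  x : List A
  c : Fin M.k → ℕ
  dir : Fin M.k → SignType
  rev : ℕ

variable {A : Type}

/-- The move `(q', b, v)` is possible in the configuration `s`: it is in the table, no counter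
becomes negative, and the head does not move beyond the end of the input. -/
def Machine.Possible (M : Machine A) (s : Conf M) (m : M.Q × Bool × (Fin M.k → SignType)) : Prop :=
  (s.q, s.x.head?, (fun i => decide (s.c i = 0)), m.1, m.2.1, m.2.2) ∈ M.δ ∧
    (∀ i, 0 ≤ (s.c i : ℤ) + (m.2.2 i : ℤ)) ∧ (m.2.1 = true → s.x ≠ [])

/-- The number of reversals caused by the changes `v` after the directions `D`. -/
def revs {k : ℕ} (D v : Fin k → SignType) : ℕ :=
  (Finset.univ.filter fun i => D i ≠ 0 ∧ v i ≠ 0 ∧ D i ≠ v i).card

/-- The result of a move. -/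
def Conf.app {M : Machine A} (s : Conf M) (m : M.Q × Bool × (Fin M.k → SignType)) : Conf M where
  q := m.1
  x := if m.2.1 then s.x.tail else s.x
  c := fun i => ((s.c i : ℤ) + (m.2.2 i : ℤ)).toNat
  dir := fun i => if m.2.2 i = 0 then s.dir i else m.2.2 i
  rev := s.rev + revs s.dir m.2.2

/-- One step. -/
def Machine.Step (M : Machine A) (s t : Conf M) : Prop := ∃ m, M.Possible s m ∧ t = s.app m

/-- One step in which the head stays on its cell. -/
def Machine.Stay (M : Machine A) (s t : Conf M) : Prop :=
  ∃ m, M.Possible s m ∧ m.2.1 = false ∧ t = s.app m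

/-- The initial configuration on input `w`. -/
def Machine.init (M : Machine A) (w : List A) : Conf M :=
  ⟨M.start, w, fun _ => 0, fun _ => 0, 0⟩

/-- The configurations which occur in some computation. -/
def Machine.Reachable (M : Machine A) (s : Conf M) : Prop :=
  ∃ w, ReflTransGen M.Step (M.init w) s

/-- In every configuration at most one move is possible. -/
def Machine.Deterministic (M : Machine A) : Prop :=
  ∀ s : Conf M, ∀ m m', M.Possible s m → M.Possible s m' → m = m'

/-- The weaker condition that in every configuration which occurs in some computation at most one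
move is possible. -/
def Machine.WeaklyDeterministic (M : Machine A) : Prop :=
  ∀ s : Conf M, M.Reachable s → ∀ m m', M.Possible s m → M.Possible s m' → m = m'

/-- Partially blind: the moves do not depend on whether counters are zero. -/
def Machine.Blind (M : Machine A) : Prop :=
  ∀ q a Z q' b v, (q, a, Z, q', b, v) ∈ M.δ → ∀ Z', (q, a, Z', q', b, v) ∈ M.δ

/-- Quasi-realtime: for some `d`, in every computation every stretch during which the head stays
on the same cell has length at most `d`. -/
def Machine.QuasiRealtime (M : Machine A) : Prop :=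
  ∃ d : ℕ, ∀ (n : ℕ) (f : ℕ → Conf M), M.Reachable (f 0) → (∀ i < n, M.Stay (f i) (f (i + 1))) →
    n ≤ d

/-- `L_{Rc}(M)`: the words which have a computation with at most `c` reversals which reads the
whole input and ends in a final state with all counters zero. -/
def Machine.lang (M : Machine A) (c : ℕ) : Set (List A) :=
  {w | ∃ t : Conf M, ReflTransGen M.Step (M.init w) t ∧ t.x = [] ∧ t.q ∈ M.final ∧
    (∀ i, t.c i = 0) ∧ t.rev ≤ c}

/-- `𝓛_{Rc}(QR-DCOUNTER)` -/
def DCOUNTER (c : ℕ) (A : Type) : Set (Set (List A)) :=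
  {L | ∃ M : Machine A, M.Deterministic ∧ M.QuasiRealtime ∧ L = M.lang c}

/-- `𝓛_{Rc}(QR-DPBLIND)` -/
def DPBLIND (c : ℕ) (A : Type) : Set (Set (List A)) :=
  {L | ∃ M : Machine A, M.Blind ∧ M.Deterministic ∧ M.QuasiRealtime ∧ L = M.lang c}

/-- The two families with the weaker notion of determinism. -/
def DCOUNTER' (c : ℕ) (A : Type) : Set (Set (List A)) :=
  {L | ∃ M : Machine A, M.WeaklyDeterministic ∧ M.QuasiRealtime ∧ L = M.lang c}

def DPBLIND' (c : ℕ) (A : Type) : Set (Set (List A)) :=
  {L | ∃ M : Machine A, M.Blind ∧ M.WeaklyDeterministic ∧ M.QuasiRealtime ∧ L = M.lang c}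

/-- The words `aᵐ bⁿ` with `m ≤ n`; `a = false`, `b = true`. -/
def LL : Set (List Bool) :=
  {w | ∃ m n : ℕ, m ≤ n ∧ w = List.replicate m false ++ List.replicate n true}

/-! ### General facts -/

theorem Machine.Stay.step {M : Machine A} {s t : Conf M} (h : M.Stay s t) : M.Step s t := by
  obtain ⟨m, h1, _, h2⟩ := h
  exact ⟨m, h1, h2⟩

theorem Machine.Reachable.step {M : Machine A} {s t : Conf M} (h : M.Reachable s)
    (h' : M.Step s t) : M.Reachable t := by
  obtain ⟨w, hw⟩ := h
  exact ⟨w, hw.tail h'⟩

/-- the same state, counters and history with another remaining input -/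
def Conf.wth {M : Machine A} (s : Conf M) (y : List A) : Conf M := ⟨s.q, y, s.c, s.dir, s.rev⟩

/-- add `e` to the counters -/
def Conf.pl {M : Machine A} (s : Conf M) (e : Fin M.k → ℕ) : Conf M :=
  ⟨s.q, s.x, fun i => s.c i + e i, s.dir, s.rev⟩

/-- reading the word `u`: the computation until the head stands directly after `u`, with remaining
input `y` -/
inductive Rd (M : Machine A) (y : List A) : List A → Conf M → Conf M → Prop
  | nil (s : Conf M) : Rd M y [] s s
  | stay {a : A} {u : List A} {s t : Conf M} (m : M.Q × Bool × (Fin M.k → SignType))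
      (hx : s.x = a :: (u ++ y)) (h : M.Possible s m) (hb : m.2.1 = false)
      (hr : Rd M y (a :: u) (s.app m) t) : Rd M y (a :: u) s t
  | right {a : A} {u : List A} {s t : Conf M} (m : M.Q × Bool × (Fin M.k → SignType))
      (hx : s.x = a :: (u ++ y)) (h : M.Possible s m) (hb : m.2.1 = true)
      (hr : Rd M y u (s.app m) t) : Rd M y (a :: u) s t

theorem Rd.steps {M : Machine A} {y u : List A} {s t : Conf M} (h : Rd M y u s t) :
    ReflTransGen M.Step s t := by
  induction h with
  | nil s => exact .refl
  | stay m _ h _ _ ih => exact ReflTransGen.head ⟨m, h, rfl⟩ ih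
  | right m _ h _ _ ih => exact ReflTransGen.head ⟨m, h, rfl⟩ ih

theorem app_x_false {M : Machine A} (s : Conf M) {m : M.Q × Bool × (Fin M.k → SignType)}
    (h : m.2.1 = false) : (s.app m).x = s.x := by
  simp [Conf.app, h]

theorem app_x_true {M : Machine A} (s : Conf M) {m : M.Q × Bool × (Fin M.k → SignType)}
    (h : m.2.1 = true) : (s.app m).x = s.x.tail := by
  simp [Conf.app, h]

theorem Rd.x {M : Machine A} {y u : List A} {s t : Conf M} (h : Rd M y u s t) :
    s.x = u ++ y → t.x = y := by
  induction h with
  | nil s => intro h; simpa using h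
  | stay m hx h hb _ ih =>
    intro _
    apply ih
    rw [app_x_false _ hb, hx]; rfl
  | right m hx h hb _ ih =>
    intro _
    apply ih
    rw [app_x_true _ hb, hx]; rfl

/-- a computation which reads everything passes the end of `u` -/
theorem exists_rd {M : Machine A} {y : List A} {s t : Conf M} (h : ReflTransGen M.Step s t) :
    ∀ u, s.x = u ++ y → t.x = [] → ∃ r, Rd M y u s r ∧ ReflTransGen M.Step r t := by
  induction h using ReflTransGen.head_induction_on with
  | refl =>
    intro u h1 h2
    rw [h1, List.append_eq_nil_iff] at h2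
    obtain ⟨rfl, rfl⟩ := h2
    exact ⟨t, .nil t, .refl⟩
  | @head s s' hs hst ih =>
    intro u h1 h2
    cases u with
    | nil => exact ⟨s, .nil s, ReflTransGen.head hs hst⟩
    | cons a u =>
      obtain ⟨m, hm, rfl⟩ := hs
      cases hb : m.2.1 with
      | false =>
        obtain ⟨r, hr1, hr2⟩ := ih (a :: u) (by rw [app_x_false _ hb, h1]) h2
        exact ⟨r, .stay m h1 hm hb hr1, hr2⟩
      | true =>
        obtain ⟨r, hr1, hr2⟩ := ih u (by rw [app_x_true _ hb, h1]; rfl) h2
        exact ⟨r, .right m h1 hm hb hr1, hr2⟩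

theorem possible_wth {M : Machine A} {s : Conf M} {m : M.Q × Bool × (Fin M.k → SignType)}
    (h : M.Possible s m) {z : List A} (hz : s.x.head? = z.head?) : M.Possible (s.wth z) m := by
  obtain ⟨h1, h2, h3⟩ := h
  refine ⟨?_, h2, fun hb => ?_⟩
  · show (s.q, z.head?, _, _) ∈ M.δ
    rw [← hz]; exact h1
  · show z ≠ []
    rintro rfl
    have h4 := h3 hb
    have h5 : s.x.head? = none := hz
    exact h4 (List.head?_eq_none_iff.1 h5)

theorem app_wth_false {M : Machine A} (s : Conf M) {m : M.Q × Bool × (Fin M.k → SignType)}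
    (h : m.2.1 = false) (z : List A) : (s.wth z).app m = (s.app m).wth z := by
  simp [Conf.app, Conf.wth, h]

theorem app_wth_true {M : Machine A} (s : Conf M) {m : M.Q × Bool × (Fin M.k → SignType)}
    (h : m.2.1 = true) (a : A) (z : List A) : (s.wth (a :: z)).app m = (s.app m).wth z := by
  simp [Conf.app, Conf.wth, h]

/-- the computation on `u` does not depend on the following input -/
theorem Rd.wth {M : Machine A} {y u : List A} {s t : Conf M} (h : Rd M y u s t) (z : List A) :
    Rd M z u (s.wth (u ++ z)) (t.wth z) := by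
  induction h with
  | nil s => exact .nil _
  | @stay a u s t m hx h hb _ ih =>
    refine .stay m rfl (possible_wth h (by rw [hx]; rfl)) hb ?_
    rw [app_wth_false _ hb]; exact ih
  | @right a u s t m hx h hb _ ih =>
    refine .right m rfl (possible_wth h (by rw [hx]; rfl)) hb ?_
    rw [List.cons_append, app_wth_true _ hb]; exact ih

/-- determinism -/
theorem Rd.det {M : Machine A} (hM : M.WeaklyDeterministic) {y u : List A} {s t t' : Conf M}
    (h : Rd M y u s t) (h' : Rd M y u s t') (hr : M.Reachable s) : t = t' := by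
  induction h with
  | nil s => cases h'; rfl
  | @stay a u s t m hx h hb _ ih =>
    cases h' with
    | stay m' _ h2 hb2 hr2 =>
      obtain rfl := hM s hr m m' h h2
      exact ih hr2 (hr.step ⟨m, h, rfl⟩)
    | right m' _ h2 hb2 hr2 =>
      obtain rfl := hM s hr m m' h h2
      rw [hb] at hb2; cases hb2
  | @right a u s t m hx h hb _ ih =>
    cases h' with
    | stay m' _ h2 hb2 hr2 =>
      obtain rfl := hM s hr m m' h h2
      rw [hb] at hb2; cases hb2
    | right m' _ h2 hb2 hr2 =>
      obtain rfl := hM s hr m m' h h2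
      exact ih hr2 (hr.step ⟨m, h, rfl⟩)

theorem possible_pl {M : Machine A} (hB : M.Blind) {s : Conf M}
    {m : M.Q × Bool × (Fin M.k → SignType)} (h : M.Possible s m) (e : Fin M.k → ℕ) :
    M.Possible (s.pl e) m := by
  obtain ⟨h1, h2, h3⟩ := h
  refine ⟨hB _ _ _ _ _ _ h1 _, fun i => ?_, h3⟩
  have := h2 i
  show (0 : ℤ) ≤ ((s.c i + e i : ℕ) : ℤ) + _
  push_cast
  omega

theorem app_pl {M : Machine A} {s : Conf M} {m : M.Q × Bool × (Fin M.k → SignType)}
    (h : M.Possible s m) (e : Fin M.k → ℕ) : (s.pl e).app m = (s.app m).pl e := by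
  have hc : (fun i => (((s.c i + e i : ℕ) : ℤ) + (m.2.2 i : ℤ)).toNat) =
      fun i => ((s.c i : ℤ) + (m.2.2 i : ℤ)).toNat + e i := by
    funext i
    have := h.2.1 i
    push_cast
    omega
  simp only [Conf.app, Conf.pl]
  rw [hc]

/-- monotonicity -/
theorem Rd.pl {M : Machine A} (hB : M.Blind) {y u : List A} {s t : Conf M} (h : Rd M y u s t)
    (e : Fin M.k → ℕ) : Rd M y u (s.pl e) (t.pl e) := by
  induction h with
  | nil s => exact .nil _
  | @stay a u s t m hx h hb _ ih =>
    refine .stay m hx (possible_pl hB h e) hb ?_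
    rw [app_pl h]; exact ih
  | @right a u s t m hx h hb _ ih =>
    refine .right m hx (possible_pl hB h e) hb ?_
    rw [app_pl h]; exact ih

theorem rev_mono {M : Machine A} {s t : Conf M} (h : ReflTransGen M.Step s t) :
    s.rev ≤ t.rev := by
  induction h with
  | refl => exact le_rfl
  | tail _ h ih =>
    obtain ⟨m, _, rfl⟩ := h
    exact ih.trans (Nat.le_add_right _ _)

/-- at the end of the input the counters decrease by at most `d k` -/
theorem drain {M : Machine A} {d : ℕ}
    (hd : ∀ (n : ℕ) (f : ℕ → Conf M), M.Reachable (f 0) → (∀ i < n, M.Stay (f i) (f (i + 1))) →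
      n ≤ d) {s t : Conf M} (hs : M.Reachable s) (hx : s.x = [])
    (h : ReflTransGen M.Step s t) : ∑ i, s.c i ≤ ∑ i, t.c i + d * M.k := by
  -- the computation as a sequence
  have key : ∀ t, ReflTransGen M.Step s t → t.x = [] ∧ ∃ (n : ℕ) (f : ℕ → Conf M), f 0 = s ∧
      f n = t ∧ (∀ i < n, M.Stay (f i) (f (i + 1))) ∧ ∑ i, s.c i ≤ ∑ i, t.c i + n * M.k := by
    intro t h
    induction h with
    | refl => exact ⟨hx, 0, fun _ => s, rfl, rfl, by simp, by simp⟩
    | @tail t t' _ hst ih =>
      obtain ⟨htx, n, f, h0, hn, hf, hsum⟩ := ih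
      obtain ⟨m, hm, rfl⟩ := hst
      have hb : m.2.1 = false := by
        by_contra hb
        exact hm.2.2 (by simpa using hb) htx
      refine ⟨by rw [app_x_false _ hb]; exact htx, n + 1,
        fun i => if i ≤ n then f i else t.app m, by simp [h0], by simp, ?_, ?_⟩
      · intro i hi
        rcases Nat.lt_succ_iff_lt_or_eq.1 hi with h | h
        · have h1 : i ≤ n := h.le
          have h2 : i + 1 ≤ n := h
          simp only [h1, h2, if_true]
          exact hf i h
        · subst h
          have h2 : ¬ i + 1 ≤ i := by omega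
          simp only [le_rfl, if_true, h2, if_false, hn]
          exact ⟨m, hm, hb, rfl⟩
      · have h1 : ∑ i, t.c i ≤ ∑ i, (t.app m).c i + M.k := by
          have : ∀ i ∈ (Finset.univ : Finset (Fin M.k)), t.c i ≤ (t.app m).c i + 1 := by
            intro i _
            have h2 := hm.2.1 i
            have h3 : (-1 : ℤ) ≤ (m.2.2 i : ℤ) := by
              cases m.2.2 i <;> simp
            show t.c i ≤ ((t.c i : ℤ) + (m.2.2 i : ℤ)).toNat + 1
            omega
          have h4 := Finset.sum_le_sum this
          rw [Finset.sum_add_distrib] at h4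
          simpa using h4
        calc ∑ i, s.c i ≤ ∑ i, t.c i + n * M.k := hsum
          _ ≤ (∑ i, (t.app m).c i + M.k) + n * M.k := by omega
          _ = ∑ i, (t.app m).c i + (n + 1) * M.k := by ring
  obtain ⟨_, n, f, h0, _, hf, hsum⟩ := key t h
  have hn := hd n f (by rw [h0]; exact hs) hf
  have : n * M.k ≤ d * M.k := Nat.mul_le_mul_right _ hn
  omega

/-! ### The lower bound -/

theorem rep_inj {m n m' n' : ℕ} (h : List.replicate m false ++ List.replicate n true =
    List.replicate m' false ++ List.replicate n' true) : m = m' ∧ n = n' := by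
  have h1 := congrArg (List.count false) h
  have h2 := congrArg (List.count true) h
  simp [List.count_replicate] at h1 h2
  exact ⟨h1, h2⟩

theorem not_blind (c : ℕ) (M : Machine Bool) (hB : M.Blind) (hD : M.WeaklyDeterministic)
    (hQ : M.QuasiRealtime) : LL ≠ M.lang c := by
  intro hL
  obtain ⟨d, hd⟩ := hQ
  -- the configuration directly after `a^m` (with empty remaining input)
  have hacc : ∀ m n, m ≤ n → ∃ r t : Conf M,
      Rd M (List.replicate n true) (List.replicate m false)
        (M.init (List.replicate m false ++ List.replicate n true)) r ∧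
      ReflTransGen M.Step r t ∧ t.x = [] ∧ t.q ∈ M.final ∧ (∀ i, t.c i = 0) ∧ t.rev ≤ c := by
    intro m n hmn
    have : List.replicate m false ++ List.replicate n true ∈ M.lang c := by
      rw [← hL]; exact ⟨m, n, hmn, rfl⟩
    obtain ⟨t, ht, h1, h2, h3, h4⟩ := this
    obtain ⟨r, hr1, hr2⟩ := exists_rd ht _ rfl h1
    exact ⟨r, t, hr1, hr2, h1, h2, h3, h4⟩
  choose s hs using fun m => hacc m m le_rfl
  -- the configuration after `a^m` does not depend on the number of `b`s
  have huni : ∀ m n (r : Conf M), Rd M (List.replicate n true) (List.replicate m false)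
      (M.init (List.replicate m false ++ List.replicate n true)) r →
      r = (s m).wth (List.replicate n true) := by
    intro m n r hr
    obtain ⟨_, h1, _⟩ := hs m
    have h2 := h1.wth (List.replicate n true)
    have h3 : (M.init (List.replicate m false ++ List.replicate m true)).wth
        (List.replicate m false ++ List.replicate n true) =
        M.init (List.replicate m false ++ List.replicate n true) := rfl
    rw [h3] at h2
    exact hr.det hD h2 ⟨_, .refl⟩
  have hrev : ∀ m, (s m).rev ≤ c := by
    intro m
    obtain ⟨t, _, h2, _, _, _, h6⟩ := hs m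
    exact (rev_mono h2).trans h6
  -- pigeonhole
  have := M.finQ
  let F : ℕ → M.Q × (Fin M.k → SignType) × Fin (c + 1) := fun m =>
    ((s m).q, (s m).dir, ⟨(s m).rev, Nat.lt_succ_of_le (hrev m)⟩)
  obtain ⟨v, hv⟩ := Finite.exists_infinite_fiber F
  classical
  have hinf : (F ⁻¹' {v}).Infinite := Set.infinite_coe_iff.1 hv
  let g1 : ℕ ↪o ℕ := Nat.orderEmbeddingOfSet (F ⁻¹' {v})
  have hg1 : ∀ n, F (g1 n) = v := by
    intro n
    have : g1 n ∈ Set.range g1 := ⟨n, rfl⟩
    rw [Nat.orderEmbeddingOfSet_range] at this
    exact this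
  obtain ⟨g2, hg2⟩ := (wellQuasiOrdered_le (α := Fin M.k → ℕ)).exists_monotone_subseq
    (fun n => (s (g1 n)).c)
  let g : ℕ → ℕ := fun n => g1 (g2 n)
  have hgm : StrictMono g := fun i j h => g1.strictMono (g2.strictMono h)
  have hF : ∀ i j, (s (g i)).q = (s (g j)).q ∧ (s (g i)).dir = (s (g j)).dir ∧
      (s (g i)).rev = (s (g j)).rev := by
    intro i j
    have h1 : F (g i) = F (g j) := by rw [hg1, hg1]
    simp only [F, Prod.mk.injEq, Fin.mk.injEq] at h1
    exact h1
  have hcm : ∀ i j, i ≤ j → (s (g i)).c ≤ (s (g j)).c := fun i j h => hg2 i j h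
  by_cases hinj : ∀ i, (s (g i)).c ≠ (s (g (i + 1))).c
  · -- the counters are unbounded
    have hsum : ∀ j, (∑ i, (s (g 0)).c i) + j ≤ ∑ i, (s (g j)).c i := by
      intro j
      induction j with
      | zero => simp
      | succ j ih =>
        have h1 := hcm j (j + 1) (Nat.le_succ j)
        have h2 : ∑ i, (s (g j)).c i < ∑ i, (s (g (j + 1))).c i := by
          refine Finset.sum_lt_sum (fun i _ => h1 i) ?_
          by_contra hno
          push Not at hno
          exact hinj j (le_antisymm h1 fun i => hno i (Finset.mem_univ i))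
        omega
    set j := d * M.k + 1 with hj
    set m := g 0 with hm
    set m' := g j with hm'
    have hmm : m ≤ m' := hgm.monotone (Nat.zero_le j)
    let e : Fin M.k → ℕ := fun i => (s m').c i - (s m).c i
    have he : ∀ i, (s m').c i = (s m).c i + e i := by
      intro i
      have : (s m).c i ≤ (s m').c i := hcm 0 j (Nat.zero_le j) i
      show _ = _ + ((s m').c i - (s m).c i)
      omega
    -- the accepting computation on `a^m b^m'`
    obtain ⟨r, t, hr1, hr2, ht1, ht2, ht3, ht4⟩ := hacc m m' hmm
    have hre := huni m m' r hr1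
    obtain ⟨p, hp1, hp2⟩ := exists_rd (y := []) hr2 (List.replicate m' true)
      (by rw [hre]; simp [Conf.wth]) ht1
    -- the accepting computation on `a^m' b^m'`
    obtain ⟨r', t', hr1', hr2', ht1', ht2', ht3', ht4'⟩ := hacc m' m' le_rfl
    have hre' := huni m' m' r' hr1'
    obtain ⟨p', hp1', hp2'⟩ := exists_rd (y := []) hr2' (List.replicate m' true)
      (by rw [hre']; simp [Conf.wth]) ht1'
    have hrr : r' = r.pl e := by
      rw [hre, hre']
      obtain ⟨h1, h2, h3⟩ := hF j 0
      ext1
      · exact h1
      · rfl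
      · funext i; exact he i
      · exact h2
      · exact h3
    have hR' : M.Reachable r' := ⟨_, hr1'.steps⟩
    have hpp : p' = p.pl e := by
      have h1 := hp1.pl hB e
      rw [← hrr] at h1
      exact hp1'.det hD h1 hR'
    have hRp : M.Reachable p' := by
      obtain ⟨w, hw⟩ := hR'
      exact ⟨w, hw.trans hp1'.steps⟩
    have hpx : p'.x = [] := hp1'.x (by rw [hre']; simp [Conf.wth])
    have h5 := drain hd hRp hpx hp2'
    have h6 : ∑ i, p'.c i = ∑ i, p.c i + ∑ i, e i := by
      rw [hpp, ← Finset.sum_add_distrib]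
      rfl
    have h7 : ∑ i, (s m').c i = ∑ i, (s m).c i + ∑ i, e i := by
      rw [← Finset.sum_add_distrib]
      exact Finset.sum_congr rfl fun i _ => he i
    have h8 : (∑ i, (s m).c i) + j ≤ ∑ i, (s m').c i := hsum j
    have h9 : ∑ i, t'.c i = 0 := Finset.sum_eq_zero fun i _ => ht3' i
    omega
  · -- two equal configurations
    push Not at hinj
    obtain ⟨j, hj⟩ := hinj
    set m := g j with hm
    set m' := g (j + 1) with hm'
    have hmm : m < m' := hgm (Nat.lt_succ_self j)
    obtain ⟨t, h1, h2, h3, h4, h5, h6⟩ := hs m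
    obtain ⟨_, h1', _⟩ := hs m'
    have hse : (s m').wth (List.replicate m true) = s m := by
      obtain ⟨e1, e2, e3⟩ := hF (j + 1) j
      ext1
      · exact e1
      · exact (h1.x rfl).symm
      · exact hj.symm
      · exact e2
      · exact e3
    have h7 := (h1'.wth (List.replicate m true)).steps
    rw [hse] at h7
    have h8 : List.replicate m' false ++ List.replicate m true ∈ M.lang c :=
      ⟨t, h7.trans h2, h3, h4, h5, h6⟩
    rw [← hL] at h8
    obtain ⟨a, b, hab, he⟩ := h8
    obtain ⟨rfl, rfl⟩ := rep_inj he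
    omega

/-! ### The upper bound -/

/-- the table of the machine: state `false`: reading `a`s, state `true`: reading `b`s; on `a`
increment, on `b` decrement if the counter is positive -/
def tb : Bool → Option Bool → Bool → Option (Bool × Bool × SignType)
  | false, some false, _ => some (false, true, 1)
  | false, some true, z => some (true, true, if z then 0 else -1)
  | true, some true, z => some (true, true, if z then 0 else -1)
  | _, _, _ => none

/-- the machine -/
def UM : Machine Bool where
  Q := Bool
  finQ := inferInstanceAs (Finite Bool)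
  k := 1
  start := false
  final := Set.univ
  δ := {m | ∃ v, tb m.1 m.2.1 (m.2.2.1 0) = some (m.2.2.2.1, m.2.2.2.2.1, v) ∧
    m.2.2.2.2.2 = fun _ => v}

instance : OfNat (Fin UM.k) 0 := inferInstanceAs (OfNat (Fin 1) 0)

instance : Subsingleton (Fin UM.k) := inferInstanceAs (Subsingleton (Fin 1))

theorem um_possible {s : Conf UM} {m : UM.Q × Bool × (Fin UM.k → SignType)}
    (h : UM.Possible s m) : ∃ v, tb s.q s.x.head? (decide (s.c 0 = 0)) = some (m.1, m.2.1, v) ∧
      m.2.2 = fun _ => v := h.1

theorem um_mk {s : Conf UM} {q : Bool} {v : SignType}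
    (h : tb s.q s.x.head? (decide (s.c 0 = 0)) = some (q, true, v))
    (hv : 0 ≤ (s.c 0 : ℤ) + (v : ℤ)) (hx : s.x ≠ []) :
    UM.Step s (s.app ((q, true, fun _ => v) : Bool × Bool × (Fin 1 → SignType))) := by
  refine ⟨((q, true, fun _ => v) : Bool × Bool × (Fin 1 → SignType)),
    ⟨⟨v, h, rfl⟩, fun i => ?_, fun _ => hx⟩, rfl⟩
  have : i = 0 := Subsingleton.elim _ _
  subst this
  exact hv

theorem tb_true {q : Bool} {a : Option Bool} {z q' b : Bool} {v : SignType}
    (h : tb q a z = some (q', b, v)) : b = true := by
  cases q <;> rcases a with _ | _ | _ <;> simp [tb] at h <;> exact h.2.1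

theorem um_det : UM.Deterministic := by
  intro s m m' h h'
  obtain ⟨v, h1, h2⟩ := um_possible h
  obtain ⟨v', h1', h2'⟩ := um_possible h'
  rw [h1] at h1'
  have e := Option.some.inj h1'
  have e1 : m.1 = m'.1 := congrArg (fun x : Bool × Bool × SignType => x.1) e
  have e2 : m.2.1 = m'.2.1 := congrArg (fun x : Bool × Bool × SignType => x.2.1) e
  have e3 : v = v' := congrArg (fun x : Bool × Bool × SignType => x.2.2) e
  refine Prod.ext e1 (Prod.ext e2 ?_)
  rw [h2, h2', e3]

theorem um_qr : UM.QuasiRealtime := by
  refine ⟨0, fun n f _ hf => ?_⟩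
  by_contra hn
  obtain ⟨m, hm, hb, _⟩ := hf 0 (by omega)
  obtain ⟨v, h1, _⟩ := um_possible hm
  rw [tb_true h1] at hb
  cases hb

/-- the invariant -/
def Inv (w : List Bool) (t : Conf UM) : Prop :=
  (t.q = false ∧ w = List.replicate (t.c 0) false ++ t.x) ∨
  (t.q = true ∧ ∃ m n, w = List.replicate m false ++ (List.replicate n true ++ t.x) ∧
    t.c 0 = m - n)

theorem inv_step {w : List Bool} {s t : Conf UM} (h : UM.Step s t) (hs : Inv w s) :
    Inv w t := by
  obtain ⟨m, hm, rfl⟩ := h
  obtain ⟨v, h1, h2⟩ := um_possible hm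
  obtain ⟨q', b, v'⟩ := m
  simp only at h1 h2
  obtain rfl := tb_true h1
  subst h2
  have hc : (s.app ((q', true, fun _ => v) : UM.Q × Bool × (Fin UM.k → SignType))).c 0 =
      ((s.c 0 : ℤ) + (v : ℤ)).toNat := rfl
  have hx : (s.app ((q', true, fun _ => v) : UM.Q × Bool × (Fin UM.k → SignType))).x =
      s.x.tail := rfl
  have hq : (s.app ((q', true, fun _ => v) : UM.Q × Bool × (Fin UM.k → SignType))).q = q' := rfl
  rcases hs with ⟨hsq, hw⟩ | ⟨hsq, m, n, hw, hcn⟩
  · rw [hsq] at h1
    rcases hsx : s.x with _ | ⟨_ | _, x⟩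
    · rw [hsx] at h1; simp [tb] at h1
    · rw [hsx] at h1
      simp only [List.head?_cons, tb, Option.some.injEq, Prod.mk.injEq, true_and] at h1
      obtain ⟨rfl, rfl⟩ := h1
      left
      refine ⟨hq, ?_⟩
      rw [hc, hx, hsx, hw, hsx]
      have : ((s.c 0 : ℤ) + ((1 : SignType) : ℤ)).toNat = s.c 0 + 1 := by
        rw [SignType.coe_one]; omega
      rw [this, List.replicate_succ']
      simp
    · rw [hsx] at h1
      simp only [List.head?_cons, tb, Option.some.injEq, Prod.mk.injEq, true_and] at h1
      obtain ⟨rfl, rfl⟩ := h1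
      right
      refine ⟨hq, s.c 0, 1, ?_, ?_⟩
      · rw [hx, hsx, hw, hsx]; rfl
      · rw [hc]
        by_cases h0 : s.c 0 = 0
        · simp [h0]
        · simp only [h0, decide_false, Bool.false_eq_true, if_false, SignType.coe_neg,
            SignType.coe_one]
          omega
  · rw [hsq] at h1
    rcases hsx : s.x with _ | ⟨_ | _, x⟩
    · rw [hsx] at h1; simp [tb] at h1
    · rw [hsx] at h1; simp [tb] at h1
    · rw [hsx] at h1
      simp only [List.head?_cons, tb, Option.some.injEq, Prod.mk.injEq, true_and] at h1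
      obtain ⟨rfl, rfl⟩ := h1
      right
      refine ⟨hq, m, n + 1, ?_, ?_⟩
      · rw [hx, hsx, hw, hsx, List.replicate_succ']
        simp
      · rw [hc]
        by_cases h0 : s.c 0 = 0
        · simp [h0]; omega
        · simp only [h0, decide_false, Bool.false_eq_true, if_false, SignType.coe_neg,
            SignType.coe_one]
          omega

theorem runA : ∀ (i : ℕ) (y : List Bool) (s : Conf UM), s.q = false →
    s.x = List.replicate i false ++ y → s.dir 0 ≠ -1 →
    ∃ t : Conf UM, ReflTransGen UM.Step s t ∧ t.q = false ∧ t.x = y ∧ t.c 0 = s.c 0 + i ∧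
      t.rev = s.rev ∧ t.dir 0 ≠ -1 := by
  intro i
  induction i with
  | zero => intro y s h1 h2 h3; exact ⟨s, .refl, h1, by simpa using h2, rfl, rfl, h3⟩
  | succ i ih =>
    intro y s h1 h2 h3
    rw [List.replicate_succ, List.cons_append] at h2
    have hs := um_mk (s := s) (q := false) (v := 1) (by rw [h1, h2]; rfl) (by simp; omega)
      (by rw [h2]; simp)
    obtain ⟨t, ht1, ht2, ht3, ht4, ht5, ht6⟩ := ih y
      (s.app ((false, true, fun _ => 1) : Bool × Bool × (Fin 1 → SignType))) rfl
      (by show s.x.tail = _; rw [h2]; rfl) (by show (1 : SignType) ≠ -1; decide)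
    refine ⟨t, ReflTransGen.head hs ht1, ht2, ht3, ?_, ?_, ht6⟩
    · rw [ht4]
      show ((s.c 0 : ℤ) + ((1 : SignType) : ℤ)).toNat + i = s.c 0 + (i + 1)
      simp; omega
    · rw [ht5]
      show s.rev + revs s.dir (fun _ => (1 : SignType)) = s.rev
      have : revs s.dir (fun _ => (1 : SignType)) = 0 := by
        unfold revs
        rw [Finset.card_eq_zero, Finset.filter_eq_empty_iff]
        intro j _ ⟨h4, _, h6⟩
        have : j = 0 := Subsingleton.elim _ _
        subst this
        revert h3 h4 h6
        generalize s.dir 0 = D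
        cases D <;> decide
      rw [this]; rfl

theorem runB : ∀ (n : ℕ) (s : Conf UM), s.x = List.replicate n true → s.c 0 ≤ n →
    ∃ t : Conf UM, ReflTransGen UM.Step s t ∧ t.x = [] ∧ t.c 0 = 0 ∧
      t.rev ≤ s.rev + (if s.dir 0 = -1 then 0 else 1) := by
  intro n
  induction n with
  | zero =>
    intro s h1 h2
    exact ⟨s, .refl, h1, Nat.le_zero.1 h2, Nat.le_add_right _ _⟩
  | succ n ih =>
    intro s h1 h2
    rw [List.replicate_succ] at h1
    have htb : ∀ z, tb s.q s.x.head? z = some (true, true, if z then 0 else -1) := by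
      intro z
      rw [h1]
      cases s.q <;> rfl
    by_cases h0 : s.c 0 = 0
    · have hs := um_mk (s := s) (q := true) (v := 0) (by rw [htb]; simp [h0]) (by simp)
        (by rw [h1]; simp)
      obtain ⟨t, ht1, ht2, ht3, ht4⟩ := ih
        (s.app ((true, true, fun _ => 0) : Bool × Bool × (Fin 1 → SignType)))
        (by show s.x.tail = _; rw [h1]; rfl)
        (by show ((s.c 0 : ℤ) + ((0 : SignType) : ℤ)).toNat ≤ n; rw [h0]; simp)
      refine ⟨t, ReflTransGen.head hs ht1, ht2, ht3, ht4.trans (le_of_eq ?_)⟩
      show s.rev + revs s.dir (fun _ => (0 : SignType)) + (if s.dir 0 = -1 then 0 else 1) = _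
      have : revs s.dir (fun _ => (0 : SignType)) = 0 := by
        unfold revs
        rw [Finset.card_eq_zero, Finset.filter_eq_empty_iff]
        intro j _ ⟨_, h5, _⟩
        exact h5 rfl
      rw [this]; rfl
    · have hs := um_mk (s := s) (q := true) (v := -1) (by rw [htb]; simp [h0])
        (by simp; omega) (by rw [h1]; simp)
      obtain ⟨t, ht1, ht2, ht3, ht4⟩ := ih
        (s.app ((true, true, fun _ => -1) : Bool × Bool × (Fin 1 → SignType)))
        (by show s.x.tail = _; rw [h1]; rfl)
        (by
          show ((s.c 0 : ℤ) + ((-1 : SignType) : ℤ)).toNat ≤ n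
          simp only [SignType.coe_neg, SignType.coe_one]
          omega)
      refine ⟨t, ReflTransGen.head hs ht1, ht2, ht3, ht4.trans ?_⟩
      show s.rev + revs s.dir (fun _ => (-1 : SignType)) + (if (-1 : SignType) = -1 then 0 else 1)
        ≤ _
      have : revs s.dir (fun _ => (-1 : SignType)) ≤ (if s.dir 0 = -1 then 0 else 1) := by
        split_ifs with hd
        · unfold revs
          rw [Nat.le_zero, Finset.card_eq_zero, Finset.filter_eq_empty_iff]
          intro j _ ⟨_, _, h6⟩
          have : j = 0 := Subsingleton.elim _ _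
          subst this
          exact h6 hd
        · unfold revs
          refine (Finset.card_filter_le _ _).trans ?_
          show (Finset.univ : Finset (Fin 1)).card ≤ 1
          simp
      simp only [if_true]
      omega

theorem um_lang {c : ℕ} (hc : 1 ≤ c) : LL = UM.lang c := by
  ext w
  constructor
  · rintro ⟨m, n, hmn, rfl⟩
    obtain ⟨t, ht1, ht2, ht3, ht4, ht5, ht6⟩ := runA m (List.replicate n true)
      (UM.init (List.replicate m false ++ List.replicate n true)) rfl rfl
      (by show (0 : SignType) ≠ -1; decide)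
    have h0 : t.c 0 = m := by
      rw [ht4]
      show 0 + m = m
      omega
    obtain ⟨p, hp1, hp2, hp3, hp4⟩ := runB n t ht3 (by rw [h0]; exact hmn)
    refine ⟨p, ht1.trans hp1, hp2, trivial, ?_, ?_⟩
    · intro i
      have : i = 0 := Subsingleton.elim _ _
      subst this
      exact hp3
    · rw [ht5] at hp4
      refine hp4.trans ?_
      show 0 + (if t.dir 0 = -1 then 0 else 1) ≤ c
      split_ifs <;> omega
  · rintro ⟨t, ht, hx, _, hz, _⟩
    have hinv : Inv w t := by
      have : ∀ t, ReflTransGen UM.Step (UM.init w) t → Inv w t := by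
        intro t ht
        induction ht with
        | refl => exact Or.inl ⟨rfl, rfl⟩
        | tail _ h ih => exact inv_step h ih
      exact this t ht
    rcases hinv with ⟨_, hw⟩ | ⟨_, m, n, hw, hcn⟩
    · rw [hz 0, hx] at hw
      exact ⟨0, 0, le_rfl, by simpa using hw⟩
    · rw [hx, List.append_nil] at hw
      refine ⟨m, n, ?_, hw⟩
      have := hz 0
      omega

/-- **The answer is negative**: for every `c ≥ 1` the two families differ, already over the
alphabet `{a, b}`: the language `{aᵐ bⁿ : m ≤ n}` is in `𝓛_{Rc}(QR-DCOUNTER)` but not in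
`𝓛_{Rc}(QR-DPBLIND)`. The same holds if determinism is only required for the configurations which
occur in computations. -/
theorem result : ∀ c : ℕ, 1 ≤ c →
    (LL ∈ DCOUNTER c Bool ∧ LL ∉ DPBLIND c Bool ∧ DPBLIND c Bool ≠ DCOUNTER c Bool) ∧
    (LL ∈ DCOUNTER' c Bool ∧ LL ∉ DPBLIND' c Bool ∧ DPBLIND' c Bool ≠ DCOUNTER' c Bool) := by
  intro c hc
  have h1 : LL ∈ DCOUNTER c Bool := ⟨UM, um_det, um_qr, um_lang hc⟩
  have h1' : LL ∈ DCOUNTER' c Bool := ⟨UM, fun s _ m m' h h' => um_det s m m' h h', um_qr,
    um_lang hc⟩
  have h2' : LL ∉ DPBLIND' c Bool := by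
    rintro ⟨M, hB, hD, hQ, hL⟩
    exact not_blind c M hB hD hQ hL
  have h2 : LL ∉ DPBLIND c Bool := by
    rintro ⟨M, hB, hD, hQ, hL⟩
    exact not_blind c M hB (fun s _ m m' h h' => hD s m m' h h') hQ hL
  exact ⟨⟨h1, h2, fun h => h2 (h ▸ h1)⟩, ⟨h1', h2', fun h => h2' (h ▸ h1')⟩⟩

end Pool.Agent.Results.MP_24384b_lc.BlindVersusGeneral
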